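import Mathlib

/-! Discrete measures with prescribed transforms. -/

open MeasureTheory Set Filter

namespace Pool.Agent.H49.IA

/-- From a cosine series with absolutely summable coefficients to a density. -/
theorem atoms {T : ℝ → ℝ} (w l : ℕ → ℝ) (hw : Summable fun n => |w n|) (σ : ℝ → ℝ)
    (hσ : Measurable σ) (hσ1 : ∀ x, |σ x| = 1) (hσe : ∀ x, σ (-x) = σ x)
    (hσw : ∀ n, σ (l n) * |w n| = w n)
    (hT : ∀ ξ ∈ Icc (-1:ℝ) 1, HasSum (fun n => w n * Real.cos (l n * ξ)) (T ξ)) :
    ∃ (ν : Measure ℝ) (h : ℝ → ℂ), IsFiniteMeasure ν ∧ Integrable h ν ∧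
    (∀ ξ ∈ Icc (-1:ℝ) 1, ∫ x, Complex.exp (-(Complex.I * x * ξ)) * h x ∂ν
      = ((T ξ : ℝ) : ℂ)) ∧ ∫ x, ‖h x‖ ∂ν = ∑' n, |w n| := by
  set W : ℕ → ENNReal := fun k => ENNReal.ofReal (|w k| / 2) with hW
  set μk : ℕ → Measure ℝ := fun k => W k • (Measure.dirac (l k) + Measure.dirac (-(l k))) with hμ
  set ν : Measure ℝ := Measure.sum μk with hν
  have hfin : IsFiniteMeasure ν := by
    constructor
    rw [hν, Measure.sum_apply _ MeasurableSet.univ]
    have : ∀ k, μk k univ = ENNReal.ofReal (|w k|) := by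
      intro k
      rw [hμ]
      simp only [Measure.smul_apply, Measure.add_apply, measure_univ, smul_eq_mul, hW]
      rw [show (1:ENNReal) + 1 = ENNReal.ofReal 2 by norm_num, ← ENNReal.ofReal_mul
        (by positivity)]
      congr 1; ring
    simp_rw [this]
    rw [← ENNReal.ofReal_tsum_of_nonneg (fun n => abs_nonneg _) hw]
    exact ENNReal.ofReal_lt_top
  set h : ℝ → ℂ := fun x => ((σ x : ℝ) : ℂ) with hh
  have hhm : Measurable h := Complex.measurable_ofReal.comp hσ
  have hnorm : ∀ x, ‖h x‖ = 1 := by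
    intro x
    rw [hh]
    simp only
    rw [Complex.norm_real, Real.norm_eq_abs, hσ1]
  have hint : ∀ f : ℝ → ℂ, Measurable f → (∀ x, ‖f x‖ ≤ 1) → Integrable f ν := by
    intro f hf hb
    exact Integrable.of_bound hf.aestronglyMeasurable 1 (Eventually.of_forall hb)
  have hintk : ∀ (f : ℝ → ℂ) (k : ℕ), Measurable f → ∫ x, f x ∂(μk k) =
      ((|w k| / 2 : ℝ) : ℂ) * (f (l k) + f (-(l k))) := by
    intro f k hf
    have hi : ∀ y : ℝ, Integrable f (Measure.dirac y) := by
      intro y
      apply integrable_dirac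
      exact enorm_lt_top
    rw [hμ]
    simp only
    rw [integral_smul_measure, integral_add_measure (hi _) (hi _), integral_dirac, integral_dirac,
      ENNReal.toReal_ofReal (by positivity)]
    rw [Complex.real_smul]
  refine ⟨ν, h, hfin, hint h hhm (fun x => (hnorm x).le), ?_, ?_⟩
  · intro ξ hξ
    set f : ℝ → ℂ := fun x => Complex.exp (-(Complex.I * x * ξ)) * h x with hf
    have hfm : Measurable f := by
      rw [hf]
      exact Measurable.mul (by fun_prop) hhm
    have hfb : ∀ x, ‖f x‖ ≤ 1 := by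
      intro x
      rw [hf]
      simp only
      rw [norm_mul, Complex.norm_exp]
      have : (-(Complex.I * (x:ℂ) * (ξ:ℂ))).re = 0 := by simp
      rw [this, Real.exp_zero, one_mul]
      exact (hnorm x).le
    have h1 := hasSum_integral_measure (hint f hfm hfb)
    have h2 : HasSum (fun n => ((w n * Real.cos (l n * ξ) : ℝ) : ℂ)) ((T ξ : ℝ) : ℂ) := by
      exact_mod_cast hT ξ hξ
    refine h1.unique ?_
    have e : (fun k : ℕ => ∫ x, f x ∂(μk k)) = fun n => ((w n * Real.cos (l n * ξ) : ℝ) : ℂ) := by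
      funext k
      rw [hintk f k hfm, hf]
      simp only [hh]
      rw [hσe]
      have e0 : ((w k : ℝ) : ℂ) = ((σ (l k) : ℝ) : ℂ) * ((|w k| : ℝ) : ℂ) := by
        rw [← Complex.ofReal_mul, hσw]
      rw [Complex.ofReal_mul (w k), e0]
      generalize |w k| = y
      push_cast
      have e1 : Complex.cos ((l k : ℂ) * ξ) = (Complex.exp ((l k : ℂ) * ξ * Complex.I)
          + Complex.exp (-((l k : ℂ) * ξ) * Complex.I)) / 2 := rfl
      have e2 : -(Complex.I * (l k : ℂ) * ξ) = -((l k : ℂ) * ξ) * Complex.I := by ring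
      have e3 : -(Complex.I * (-(l k : ℂ)) * ξ) = (l k : ℂ) * ξ * Complex.I := by ring
      rw [e1, e2, e3]
      ring
    rw [e]
    exact h2
  · have h1 : ∫ x, ‖h x‖ ∂ν = ∫ x, (1:ℝ) ∂ν := by
      congr 1
      funext x
      exact hnorm x
    rw [h1, integral_const, smul_eq_mul, mul_one, Measure.real, hν,
      Measure.sum_apply _ MeasurableSet.univ]
    have : ∀ k, μk k univ = ENNReal.ofReal (|w k|) := by
      intro k
      rw [hμ]
      simp only [Measure.smul_apply, Measure.add_apply, measure_univ, smul_eq_mul, hW]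
      rw [show (1:ENNReal) + 1 = ENNReal.ofReal 2 by norm_num, ← ENNReal.ofReal_mul
        (by positivity)]
      congr 1; ring
    simp_rw [this]
    rw [← ENNReal.ofReal_tsum_of_nonneg (fun n => abs_nonneg _) hw,
      ENNReal.toReal_ofReal (tsum_nonneg fun n => abs_nonneg _)]

end Pool.Agent.H49.IA
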