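import Mathlib

/-! The odd extension about `1` of `(1-|ξ|)^α`, of period four, and its cosine series. -/

open MeasureTheory Set Filter Topology

namespace Pool.Agent.H49.IA

instance : Fact (0 < (4:ℝ)) := ⟨by norm_num⟩

/-- odd power function -/
noncomputable def G (α t : ℝ) : ℝ := if 0 ≤ t then t ^ α else -((-t) ^ α)

lemma G_neg (α : ℝ) (hα : 0 < α) (t : ℝ) : G α (-t) = - G α t := by
  unfold G
  rcases lt_trichotomy t 0 with h | h | h
  · rw [if_pos (by linarith), if_neg (by linarith)]; ring
  · subst h; simp [hα.ne']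
  · rw [if_neg (by linarith), if_pos h.le, neg_neg]

lemma G_cont (α : ℝ) (hα : 0 < α) : Continuous (G α) := by
  unfold G
  apply Continuous.if_le
  · exact Real.continuous_rpow_const hα.le
  · exact ((Real.continuous_rpow_const hα.le).comp continuous_neg).neg
  · exact continuous_const
  · exact continuous_id
  · intro x hx
    have : x = 0 := hx.symm
    subst this
    simp [hα.ne']

/-- the periodic function -/
noncomputable def F (α : ℝ) (hα : 0 < α) : C(AddCircle (4:ℝ), ℂ) :=
  ⟨fun x => ((G α (1 - ‖x‖) : ℝ) : ℂ),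
    Complex.continuous_ofReal.comp ((G_cont α hα).comp (continuous_const.sub continuous_norm))⟩

lemma F_coe {α : ℝ} (hα : 0 < α) {x : ℝ} (hx : |x| ≤ 2) :
    F α hα (x : AddCircle (4:ℝ)) = ((G α (1 - |x|) : ℝ) : ℂ) := by
  have : ‖(x : AddCircle (4:ℝ))‖ = |x| :=
    (AddCircle.norm_coe_eq_abs_iff (p := (4:ℝ)) (by norm_num)).2 (by
      rw [abs_of_pos (by norm_num : (0:ℝ) < 4)]; linarith)
  show ((G α (1 - ‖(x : AddCircle (4:ℝ))‖) : ℝ) : ℂ) = _
  rw [this]

/-- the basic integral -/
noncomputable def J (α : ℝ) (a : ℝ) : ℝ := ∫ x in (0:ℝ)..1, Real.cos (a * x) * (1 - x) ^ α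

lemma e_four (n : ℤ) (x : ℝ) : (fourier n (x : AddCircle (4:ℝ)) : ℂ) =
    Complex.exp (((Real.pi * n / 2 * x : ℝ) : ℂ) * Complex.I) := by
  rw [fourier_coe_apply]
  congr 1
  push_cast
  ring

lemma coef {α : ℝ} (hα : 0 < α) (n : ℤ) :
    fourierCoeff (F α hα) n =
      (((1 - Real.cos (Real.pi * n)) / 2 * J α (Real.pi * n / 2) : ℝ) : ℂ) := by
  set a : ℝ := Real.pi * n / 2 with ha
  have h1 := fourierCoeff_eq_intervalIntegral (F α hα) n (-2)
  rw [h1]
  have h2 : ∫ x in (-2:ℝ)..(-2 + 4), (fourier (-n) (x : AddCircle (4:ℝ)) : ℂ) • F α hα x =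
      ∫ x in (-2:ℝ)..2, Complex.exp (-(a * x : ℝ) * Complex.I) * ((G α (1 - |x|) : ℝ) : ℂ) := by
    rw [show (-2:ℝ) + 4 = 2 by norm_num]
    apply intervalIntegral.integral_congr
    intro x hx
    rw [uIcc_of_le (by norm_num)] at hx
    simp only
    rw [F_coe hα (abs_le.2 hx), e_four, smul_eq_mul]
    congr 2
    push_cast [ha]
    ring
  rw [h2]
  have hGc : Continuous fun x : ℝ => ((G α (1 - |x|) : ℝ) : ℂ) :=
    Complex.continuous_ofReal.comp ((G_cont α hα).comp (by fun_prop))
  have hc : Continuous fun x : ℝ => Complex.exp (-(a * x : ℝ) * Complex.I) *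
      ((G α (1 - |x|) : ℝ) : ℂ) := Continuous.mul (by fun_prop) hGc
  have hc2 : Continuous fun x : ℝ => Complex.exp ((a * x : ℝ) * Complex.I) *
      ((G α (1 - |x|) : ℝ) : ℂ) := Continuous.mul (by fun_prop) hGc
  have h3 : ∫ x in (-2:ℝ)..2, Complex.exp (-(a * x : ℝ) * Complex.I) * ((G α (1 - |x|) : ℝ) : ℂ) =
      ∫ x in (0:ℝ)..2, ((2 * Real.cos (a * x) * G α (1 - x) : ℝ) : ℂ) := by
    rw [← intervalIntegral.integral_add_adjacent_intervals (b := 0) (hc.intervalIntegrable _ _)
      (hc.intervalIntegrable _ _)]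
    have e1 : ∫ x in (-2:ℝ)..0, Complex.exp (-(a * x : ℝ) * Complex.I) *
        ((G α (1 - |x|) : ℝ) : ℂ) = ∫ x in (0:ℝ)..2, Complex.exp ((a * x : ℝ) * Complex.I) *
        ((G α (1 - |x|) : ℝ) : ℂ) := by
      have := intervalIntegral.integral_comp_neg (a := (0:ℝ)) (b := 2) (fun x : ℝ =>
        Complex.exp (-(a * x : ℝ) * Complex.I) * ((G α (1 - |x|) : ℝ) : ℂ))
      rw [neg_zero] at this
      rw [← this]
      apply intervalIntegral.integral_congr
      intro x _
      simp only [abs_neg]
      congr 2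
      push_cast
      ring
    rw [e1, ← intervalIntegral.integral_add (hc2.intervalIntegrable _ _)
      (hc.intervalIntegrable _ _)]
    apply intervalIntegral.integral_congr
    intro x hx
    rw [uIcc_of_le (by norm_num)] at hx
    simp only
    rw [abs_of_nonneg hx.1]
    push_cast
    have e1 : Complex.cos ((a : ℂ) * x) = (Complex.exp ((a : ℂ) * x * Complex.I)
          + Complex.exp (-((a : ℂ) * x) * Complex.I)) / 2 := rfl
    rw [e1]
    ring
  rw [h3, intervalIntegral.integral_ofReal]
  have hr : Continuous fun x : ℝ => 2 * Real.cos (a * x) * G α (1 - x) :=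
    Continuous.mul (by fun_prop) ((G_cont α hα).comp (by fun_prop))
  have h4 : ∫ x in (0:ℝ)..2, 2 * Real.cos (a * x) * G α (1 - x) =
      2 * ((1 - Real.cos (Real.pi * n)) * J α a) := by
    rw [← intervalIntegral.integral_add_adjacent_intervals (b := 1) (hr.intervalIntegrable _ _)
      (hr.intervalIntegrable _ _)]
    have e1 : ∫ x in (0:ℝ)..1, 2 * Real.cos (a * x) * G α (1 - x) = 2 * J α a := by
      unfold J
      rw [← intervalIntegral.integral_const_mul]
      apply intervalIntegral.integral_congr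
      intro x hx
      rw [uIcc_of_le (by norm_num)] at hx
      simp only
      unfold G
      rw [if_pos (by linarith [hx.2])]
      ring
    have e2 : ∫ x in (1:ℝ)..2, 2 * Real.cos (a * x) * G α (1 - x) =
        -(2 * Real.cos (Real.pi * n)) * J α a := by
      have := intervalIntegral.integral_comp_sub_left (a := (0:ℝ)) (b := 1) (fun x : ℝ =>
        2 * Real.cos (a * x) * G α (1 - x)) 2
      rw [sub_zero, show (2:ℝ) - 1 = 1 by norm_num] at this
      rw [← this]
      unfold J
      rw [← intervalIntegral.integral_const_mul]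
      apply intervalIntegral.integral_congr
      intro x hx
      rw [uIcc_of_le (by norm_num)] at hx
      simp only
      have g1 : G α (1 - (2 - x)) = -((1 - x) ^ α) := by
        rw [show 1 - (2 - x) = -(1 - x) by ring, G_neg α hα]
        unfold G
        rw [if_pos (by linarith [hx.2])]
      have g2 : Real.cos (a * (2 - x)) = Real.cos (Real.pi * n) * Real.cos (a * x) := by
        rw [show a * (2 - x) = (n:ℝ) * Real.pi - a * x by rw [ha]; ring, Real.cos_sub,
          Real.sin_int_mul_pi, zero_mul, add_zero, mul_comm (n:ℝ)]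
      rw [g1, g2]
      ring
    rw [e1, e2]
    ring
  rw [h4]
  rw [Complex.real_smul]
  push_cast
  ring

end Pool.Agent.H49.IA
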