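import Mathlib

/-! Lower bound: second differences of the Fourier transform of a nearly positive measure. -/

open MeasureTheory Set

namespace Pool.Agent.H49.IA

/-- Fourier transform of `h dν`. -/
noncomputable def FT (ν : Measure ℝ) (h : ℝ → ℂ) (ξ : ℝ) : ℂ :=
  ∫ x, Complex.exp (-(Complex.I * x * ξ)) * h x ∂ν

variable {ν : Measure ℝ} {h : ℝ → ℂ}

lemma norm_e (x ξ : ℝ) : ‖Complex.exp (-(Complex.I * (x:ℂ) * (ξ:ℂ)))‖ = 1 := by
  rw [Complex.norm_exp]
  simp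

lemma int_e (hh : Integrable h ν) (ξ : ℝ) :
    Integrable (fun x : ℝ => Complex.exp (-(Complex.I * (x:ℂ) * (ξ:ℂ))) * h x) ν := by
  refine hh.bdd_mul (c := 1) (Continuous.aestronglyMeasurable (by fun_prop)) ?_
  exact Filter.Eventually.of_forall fun x => (norm_e x ξ).le

lemma second_diff (x ξ s : ℝ) :
    2 * Complex.exp (-(Complex.I * (x:ℂ) * (ξ:ℂ))) -
      Complex.exp (-(Complex.I * (x:ℂ) * ((ξ + s : ℝ):ℂ))) -
      Complex.exp (-(Complex.I * (x:ℂ) * ((ξ - s : ℝ):ℂ))) =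
    Complex.exp (-(Complex.I * (x:ℂ) * (ξ:ℂ))) * ((2 - 2 * Real.cos (x * s) : ℝ) : ℂ) := by
  push_cast
  have h1 : Complex.cos ((x:ℂ) * s) =
      (Complex.exp (x * s * Complex.I) + Complex.exp (-(x * s) * Complex.I)) / 2 := rfl
  rw [h1]
  have e1 : -(Complex.I * (x:ℂ) * ((ξ:ℂ) + s)) =
      -(Complex.I * (x:ℂ) * ξ) + (-(x * s) * Complex.I) := by ring
  have e2 : -(Complex.I * (x:ℂ) * ((ξ:ℂ) - s)) =
      -(Complex.I * (x:ℂ) * ξ) + (x * s * Complex.I) := by ring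
  rw [e1, e2, Complex.exp_add, Complex.exp_add]
  ring

lemma FT_diff (hh : Integrable h ν) (ξ s : ℝ) :
    2 * FT ν h ξ - FT ν h (ξ + s) - FT ν h (ξ - s) =
      ∫ x, Complex.exp (-(Complex.I * (x:ℂ) * (ξ:ℂ))) * ((2 - 2 * Real.cos (x * s) : ℝ) : ℂ)
        * h x ∂ν := by
  have i1 := (int_e hh ξ).const_mul 2
  have i2 := int_e hh (ξ + s)
  have i3 := int_e hh (ξ - s)
  have e1 : 2 * FT ν h ξ = ∫ x, 2 * (Complex.exp (-(Complex.I * (x:ℂ) * (ξ:ℂ))) * h x) ∂ν :=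
    (integral_const_mul _ _).symm
  have e2 : 2 * FT ν h ξ - FT ν h (ξ + s) =
      ∫ x, (2 * (Complex.exp (-(Complex.I * (x:ℂ) * (ξ:ℂ))) * h x) -
        Complex.exp (-(Complex.I * (x:ℂ) * ((ξ + s : ℝ):ℂ))) * h x) ∂ν := by
    rw [e1]; exact (integral_sub i1 i2).symm
  have e3 : 2 * FT ν h ξ - FT ν h (ξ + s) - FT ν h (ξ - s) =
      ∫ x, (2 * (Complex.exp (-(Complex.I * (x:ℂ) * (ξ:ℂ))) * h x) -
        Complex.exp (-(Complex.I * (x:ℂ) * ((ξ + s : ℝ):ℂ))) * h x -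
        Complex.exp (-(Complex.I * (x:ℂ) * ((ξ - s : ℝ):ℂ))) * h x) ∂ν := by
    rw [e2]; exact (integral_sub (i1.sub i2) i3).symm
  rw [e3]
  congr 1
  funext x
  rw [← second_diff]
  ring

lemma cos_nonneg' (x s : ℝ) : 0 ≤ 2 - 2 * Real.cos (x * s) := by
  have := Real.cos_le_one (x * s); linarith

lemma cos_le4 (x s : ℝ) : 2 - 2 * Real.cos (x * s) ≤ 4 := by
  have := Real.neg_one_le_cos (x * s); linarith

lemma int_cos (hh : Integrable h ν) (s : ℝ) :
    Integrable (fun x : ℝ => (2 - 2 * Real.cos (x * s)) * ‖h x‖) ν := by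
  refine hh.norm.bdd_mul (c := 4) (Continuous.aestronglyMeasurable (by fun_prop)) ?_
  refine Filter.Eventually.of_forall fun x => ?_
  rw [Real.norm_of_nonneg (cos_nonneg' x s)]
  exact cos_le4 x s

lemma int_cos_re (hh : Integrable h ν) (s : ℝ) :
    Integrable (fun x : ℝ => (2 - 2 * Real.cos (x * s)) * (h x).re) ν := by
  refine hh.re.bdd_mul (c := 4) (Continuous.aestronglyMeasurable (by fun_prop)) ?_
  refine Filter.Eventually.of_forall fun x => ?_
  rw [Real.norm_of_nonneg (cos_nonneg' x s)]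
  exact cos_le4 x s

/-- The basic inequality. -/
theorem key (hh : Integrable h ν) (ξ s : ℝ) :
    ‖2 * FT ν h ξ - FT ν h (ξ + s) - FT ν h (ξ - s)‖ ≤
      4 * (∫ x, ‖h x‖ ∂ν - (FT ν h 0).re) + (2 * FT ν h 0 - FT ν h (0 + s) - FT ν h (0 - s)).re := by
  rw [FT_diff hh ξ s, FT_diff hh 0 s]
  have e0 : (FT ν h 0).re = ∫ x, (h x).re ∂ν := by
    unfold FT
    simp only [Complex.ofReal_zero, mul_zero, neg_zero, Complex.exp_zero, one_mul]
    exact (integral_re (𝕜 := ℂ) hh).symm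
  have e1 : (∫ x, Complex.exp (-(Complex.I * (x:ℂ) * ((0:ℝ):ℂ))) *
      ((2 - 2 * Real.cos (x * s) : ℝ) : ℂ) * h x ∂ν).re =
      ∫ x, (2 - 2 * Real.cos (x * s)) * (h x).re ∂ν := by
    have hi : Integrable (fun x : ℝ => Complex.exp (-(Complex.I * (x:ℂ) * ((0:ℝ):ℂ))) *
      ((2 - 2 * Real.cos (x * s) : ℝ) : ℂ) * h x) ν := by
      refine hh.bdd_mul (c := 4) (Continuous.aestronglyMeasurable (by fun_prop)) ?_
      refine Filter.Eventually.of_forall fun x => ?_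
      rw [norm_mul, norm_e, one_mul, Complex.norm_real, Real.norm_of_nonneg (cos_nonneg' x s)]
      exact cos_le4 x s
    have := (integral_re (𝕜 := ℂ) hi).symm
    refine this.trans ?_
    congr 1
    funext x
    simp only [Complex.ofReal_zero, mul_zero, neg_zero, Complex.exp_zero, one_mul]
    exact Complex.re_ofReal_mul _ _
  rw [e0, e1]
  have e2 : ∀ x : ℝ, ‖Complex.exp (-(Complex.I * (x:ℂ) * (ξ:ℂ))) *
      ((2 - 2 * Real.cos (x * s) : ℝ) : ℂ) * h x‖ = (2 - 2 * Real.cos (x * s)) * ‖h x‖ := by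
    intro x
    rw [norm_mul, norm_mul, norm_e, one_mul, Complex.norm_real,
      Real.norm_of_nonneg (cos_nonneg' x s)]
  refine (norm_integral_le_integral_norm _).trans ?_
  simp only [e2]
  have e3 : 4 * (∫ x, ‖h x‖ ∂ν - ∫ x, (h x).re ∂ν) =
      ∫ x, 4 * (‖h x‖ - RCLike.re (h x)) ∂ν := by
    rw [integral_const_mul]
    congr 1
    exact (integral_sub hh.norm hh.re).symm
  rw [e3]
  have hi2 : Integrable (fun x : ℝ => 4 * (‖h x‖ - RCLike.re (h x))) ν :=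
    (hh.norm.sub hh.re).const_mul 4
  have hi3 := int_cos_re hh s
  have : ∫ x, (2 - 2 * Real.cos (x * s)) * ‖h x‖ ∂ν ≤
      ∫ x, (4 * (‖h x‖ - RCLike.re (h x)) + (2 - 2 * Real.cos (x * s)) * (h x).re) ∂ν := by
    refine integral_mono (int_cos hh s) (hi2.add hi3) fun x => ?_
    have h1 := cos_nonneg' x s
    have h2 := cos_le4 x s
    have h3 : (h x).re ≤ ‖h x‖ := Complex.re_le_norm _
    have h4 : RCLike.re (h x) = (h x).re := rfl
    simp only []
    rw [h4]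
    nlinarith
  rw [integral_add hi2 hi3] at this
  exact this

/-- Lower bound for the norm of a measure whose transform is `(1-|ξ|)^α` on `[-1,1]`. -/
theorem lower {α : ℝ} (hα0 : 0 < α) (hα1 : α < 1) (hh : Integrable h ν)
    (hrep : ∀ ξ ∈ Icc (-1:ℝ) 1, FT ν h ξ = (((1 - |ξ|) ^ α : ℝ) : ℂ)) :
    1 + 1/2 * ((1 - α) / 4) ^ (1 / (1 - α)) ≤ ∫ x, ‖h x‖ ∂ν := by
  set ε : ℝ := 1 - α with hε
  have hε0 : 0 < ε := by linarith
  have hε1 : ε < 1 := by linarith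
  set s : ℝ := (ε / 4) ^ (1 / ε) with hs
  have hb0 : 0 < ε / 4 := by linarith
  have hs0 : 0 < s := Real.rpow_pos_of_pos hb0 _
  have hs4 : s ≤ 1/4 := by
    have h1 : s ≤ (ε/4) ^ (1:ℝ) := by
      apply Real.rpow_le_rpow_of_exponent_ge hb0 (by linarith)
      rw [le_div_iff₀ hε0]; linarith
    rw [Real.rpow_one] at h1
    linarith
  have hsε : s ^ ε = ε / 4 := by
    rw [hs, ← Real.rpow_mul hb0.le, one_div_mul_cancel hε0.ne', Real.rpow_one]
  have hk := key hh (1 - s) s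
  have r0 : FT ν h 0 = 1 := by
    rw [hrep 0 (by norm_num)]
    simp
  have r1 : FT ν h (1 - s) = ((s ^ α : ℝ) : ℂ) := by
    rw [hrep _ ⟨by linarith, by linarith⟩, abs_of_nonneg (by linarith)]
    congr 2
    ring
  have r2 : FT ν h (1 - s + s) = 0 := by
    rw [sub_add_cancel, hrep 1 (by norm_num)]
    simp [hα0.ne']
  have r3 : FT ν h (1 - s - s) = (((2 * s) ^ α : ℝ) : ℂ) := by
    rw [hrep _ ⟨by linarith, by linarith⟩, abs_of_nonneg (by linarith)]
    congr 2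
    ring
  have r4 : FT ν h (0 + s) = (((1 - s) ^ α : ℝ) : ℂ) := by
    rw [zero_add, hrep _ ⟨by linarith, by linarith⟩, abs_of_nonneg hs0.le]
  have r5 : FT ν h (0 - s) = (((1 - s) ^ α : ℝ) : ℂ) := by
    rw [zero_sub, hrep _ ⟨by linarith, by linarith⟩, abs_neg, abs_of_nonneg hs0.le]
  rw [r0, r1, r2, r3, r4, r5] at hk
  have e1 : (2 * ((s ^ α : ℝ) : ℂ) - 0 - (((2 * s) ^ α : ℝ) : ℂ)) =
      ((2 * s ^ α - (2 * s) ^ α : ℝ) : ℂ) := by push_cast; ring
  have e2 : (2 * (1:ℂ) - (((1 - s) ^ α : ℝ) : ℂ) - (((1 - s) ^ α : ℝ) : ℂ)).re =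
      2 - 2 * (1 - s) ^ α := by
    rw [show (2 * (1:ℂ) - (((1 - s) ^ α : ℝ) : ℂ) - (((1 - s) ^ α : ℝ) : ℂ)) =
      ((2 - 2 * (1 - s) ^ α : ℝ) : ℂ) by push_cast; ring, Complex.ofReal_re]
  rw [e1, e2, Complex.norm_real, Complex.one_re] at hk
  have h2 := (Real.le_norm_self _).trans hk
  have h3 : (1 - s) ≤ (1 - s) ^ α := by
    have := Real.rpow_le_rpow_of_exponent_ge (by linarith : 0 < 1 - s) (by linarith) hα1.le
    rwa [Real.rpow_one] at this
  have h4 : (2 * s) ^ α = 2 ^ α * s ^ α := Real.mul_rpow (by norm_num) hs0.le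
  have h5 : s ^ α = s * (4 / ε) := by
    have : s ^ α * s ^ ε = s := by
      rw [← Real.rpow_add hs0, hε, add_sub_cancel, Real.rpow_one]
    rw [hsε] at this
    field_simp
    field_simp at this
    linarith
  have h6 : (2:ℝ) ^ α ≤ 2 - ε := by
    have hc : (2:ℝ) ^ α ≤ 1 + α := by
      have := rpow_one_add_le_one_add_mul_self (by norm_num : (-1:ℝ) ≤ 1) hα0.le hα1.le
      norm_num at this
      linarith
    linarith
  rw [h4] at h2
  have h7 : ε * (s * (4 / ε)) = 4 * s := by field_simp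
  have h8 : 0 < s ^ α := Real.rpow_pos_of_pos hs0 _
  have h9 : ε * s ^ α = 4 * s := by rw [h5, h7]
  nlinarith

end Pool.Agent.H49.IA
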