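import Pool.Agent.H49.IA.Four

/-! Oscillatory integrals. -/

open MeasureTheory Set Filter Topology

namespace Pool.Agent.H49.IA

/-- oscillatory integral -/
noncomputable def R (α a : ℝ) : ℝ := ∫ t in (0:ℝ)..1, t ^ (α - 2) * Real.sin (a * t)

lemma rpow_int {α : ℝ} (hα : 0 < α) (x y : ℝ) :
    IntervalIntegrable (fun t : ℝ => t ^ (α - 1)) volume x y :=
  intervalIntegral.intervalIntegrable_rpow' (by linarith)

lemma R_bound {α a t : ℝ} (ha : 0 < a) (ht : 0 < t) :
    |t ^ (α - 2) * Real.sin (a * t)| ≤ a * t ^ (α - 1) := by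
  rw [abs_mul, abs_of_pos (Real.rpow_pos_of_pos ht _)]
  have h1 : |Real.sin (a * t)| ≤ a * t := by
    have := Real.abs_sin_le_abs (x := a * t)
    rwa [abs_of_pos (by positivity : 0 < a * t)] at this
  have h2 : t ^ (α - 1) = t ^ (α - 2) * t := by
    rw [← Real.rpow_add_one ht.ne']; congr 1; ring
  rw [h2]
  have := Real.rpow_pos_of_pos ht (α - 2)
  nlinarith

lemma R_int {α a : ℝ} (hα : 0 < α) (ha : 0 < a) {x y : ℝ} (hx : 0 ≤ x) (hy : 0 ≤ y) :
    IntervalIntegrable (fun t : ℝ => t ^ (α - 2) * Real.sin (a * t)) volume x y := by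
  refine ((rpow_int hα x y).const_mul a).mono_fun (by
    apply Measurable.aestronglyMeasurable; fun_prop) ?_
  rw [EventuallyLE, ae_restrict_iff' measurableSet_uIoc]
  refine Eventually.of_forall fun t ht => ?_
  have ht0 : 0 < t := by
    rw [uIoc, mem_Ioc] at ht
    exact (le_min hx hy).trans_lt ht.1
  rw [Real.norm_eq_abs, Real.norm_eq_abs]
  exact (R_bound ha ht0).trans (le_abs_self _)

lemma cos_bound {α a t : ℝ} (ht : 0 < t) :
    |t ^ (α - 3) * (1 - Real.cos (a * t))| ≤ a ^ 2 / 2 * t ^ (α - 1) := by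
  rw [abs_mul, abs_of_pos (Real.rpow_pos_of_pos ht _)]
  have h0 : 0 ≤ 1 - Real.cos (a * t) := by have := Real.cos_le_one (a * t); linarith
  rw [abs_of_nonneg h0]
  have h1 : 1 - Real.cos (a * t) ≤ (a * t) ^ 2 / 2 := by
    have := Real.one_sub_sq_div_two_le_cos (x := a * t); linarith
  have h2 : t ^ (α - 1) = t ^ (α - 3) * t ^ 2 := by
    rw [← Real.rpow_natCast, ← Real.rpow_add ht]; congr 1; push_cast; ring
  rw [h2]
  have := Real.rpow_pos_of_pos ht (α - 3)
  nlinarith

lemma C_int {α a : ℝ} (hα : 0 < α) {x y : ℝ} (hx : 0 ≤ x) (hy : 0 ≤ y) :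
    IntervalIntegrable (fun t : ℝ => t ^ (α - 3) * (1 - Real.cos (a * t))) volume x y := by
  refine ((rpow_int hα x y).const_mul (a ^ 2 / 2)).mono_fun (by
    apply Measurable.aestronglyMeasurable; fun_prop) ?_
  rw [EventuallyLE, ae_restrict_iff' measurableSet_uIoc]
  refine Eventually.of_forall fun t ht => ?_
  have ht0 : 0 < t := by
    rw [uIoc, mem_Ioc] at ht
    exact (le_min hx hy).trans_lt ht.1
  rw [Real.norm_eq_abs, Real.norm_eq_abs]
  exact (cos_bound ht0).trans (le_abs_self _)

/-- continuity at `0` of functions bounded by a power. -/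
lemma cont_of_bound {f : ℝ → ℝ} {C p : ℝ} (hp : 0 < p) (h0 : f 0 = 0)
    (hf : ∀ t, 0 < t → |f t| ≤ C * t ^ p) (hc : ∀ t, 0 < t → ContinuousAt f t) :
    ContinuousOn f (Icc 0 1) := by
  intro t ht
  rcases ht.1.eq_or_lt with h | h
  · subst h
    have h1 : Tendsto (fun t : ℝ => C * t ^ p) (𝓝[Icc 0 1] 0) (𝓝 0) := by
      have h2 : ContinuousAt (fun t : ℝ => C * t ^ p) 0 :=
        (continuous_const.mul (Real.continuous_rpow_const hp.le)).continuousAt
      have h3 := h2.tendsto
      simp only [Real.zero_rpow hp.ne', mul_zero] at h3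
      exact h3.mono_left nhdsWithin_le_nhds
    show Tendsto f (𝓝[Icc 0 1] 0) (𝓝 (f 0))
    rw [h0]
    refine squeeze_zero_norm' ?_ h1
    filter_upwards [self_mem_nhdsWithin] with t ht
    rcases ht.1.eq_or_lt with h | h
    · rw [← h, h0]; simp [Real.zero_rpow hp.ne']
    · exact hf t h
  · exact (hc t h).continuousWithinAt

lemma sin_part {α a : ℝ} (hα : 0 < α) (hα1 : α < 1) (ha : 0 < a) (hcos : Real.cos a = 0) :
    ∫ t in (0:ℝ)..1, t ^ α * Real.sin (a * t) = α / a ^ 2 * (Real.sin a + (1 - α) * R α a) := by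
  set f : ℝ → ℝ := fun t => -(t ^ α * Real.cos (a * t)) / a + α / a ^ 2 *
    (t ^ (α - 1) * Real.sin (a * t)) + (if t = 0 then 0 else 0) with hf
  set g : ℝ → ℝ := fun t => t ^ α * Real.sin (a * t) -
    α * (1 - α) / a ^ 2 * (t ^ (α - 2) * Real.sin (a * t)) with hg
  have hd : ∀ t, 0 < t → HasDerivAt (fun t => -(t ^ α * Real.cos (a * t)) / a + α / a ^ 2 *
    (t ^ (α - 1) * Real.sin (a * t))) (g t) t := by
    intro t ht
    have h1 : HasDerivAt (fun t : ℝ => t ^ α) (α * t ^ (α - 1)) t :=
      Real.hasDerivAt_rpow_const (Or.inl ht.ne')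
    have h2 : HasDerivAt (fun t : ℝ => t ^ (α - 1)) ((α - 1) * t ^ (α - 1 - 1)) t :=
      Real.hasDerivAt_rpow_const (Or.inl ht.ne')
    have h3 : HasDerivAt (fun t : ℝ => Real.cos (a * t)) (-Real.sin (a * t) * (a * 1)) t :=
      (Real.hasDerivAt_cos (a * t)).comp t ((hasDerivAt_id t).const_mul a)
    have h4 : HasDerivAt (fun t : ℝ => Real.sin (a * t)) (Real.cos (a * t) * (a * 1)) t :=
      (Real.hasDerivAt_sin (a * t)).comp t ((hasDerivAt_id t).const_mul a)
    have h5 := (((h1.mul h3).neg.div_const a).add (((h2.mul h4).const_mul (α / a ^ 2))))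
    refine h5.congr_deriv ?_
    rw [hg]
    simp only
    rw [show α - 1 - 1 = α - 2 by ring]
    field_simp
    ring
  have hb1 : ∀ t : ℝ, 0 < t → |t ^ (α - 1) * Real.sin (a * t)| ≤ a * t ^ α := by
    intro t ht
    have := R_bound (α := α + 1) ha ht
    rwa [show α + 1 - 2 = α - 1 by ring, show α + 1 - 1 = α by ring] at this
  have hcont1 : ContinuousOn (fun t : ℝ => t ^ (α - 1) * Real.sin (a * t)) (Icc 0 1) := by
    refine cont_of_bound hα (by simp) hb1 fun t ht => ?_
    exact ((Real.continuousAt_rpow_const t (α - 1) (Or.inl ht.ne')).mul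
      (by fun_prop))
  have hcont : ContinuousOn (fun t => -(t ^ α * Real.cos (a * t)) / a + α / a ^ 2 *
    (t ^ (α - 1) * Real.sin (a * t))) (Icc 0 1) := by
    refine ContinuousOn.add ?_ (continuousOn_const.mul hcont1)
    refine Continuous.continuousOn ?_
    have := Real.continuous_rpow_const hα.le
    fun_prop
  have hi1 : IntervalIntegrable (fun t : ℝ => t ^ α * Real.sin (a * t)) volume 0 1 := by
    apply Continuous.intervalIntegrable
    have := Real.continuous_rpow_const hα.le
    fun_prop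
  have hi2 : IntervalIntegrable (fun t : ℝ => α * (1 - α) / a ^ 2 *
      (t ^ (α - 2) * Real.sin (a * t))) volume 0 1 :=
    (R_int hα ha le_rfl zero_le_one).const_mul _
  have h := intervalIntegral.integral_eq_sub_of_hasDerivAt_of_le zero_le_one hcont
    (fun t ht => hd t ht.1) (hi1.sub hi2)
  rw [hg, intervalIntegral.integral_sub hi1 hi2, intervalIntegral.integral_const_mul] at h
  simp only [Real.one_rpow, mul_one, one_mul, hcos, mul_zero, Real.sin_zero, neg_zero, zero_div,
    zero_add, Real.zero_rpow hα.ne', zero_mul, sub_zero] at h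
  unfold R
  have ha' := ha.ne'
  field_simp at h ⊢
  linarith

lemma J_eq {α a : ℝ} (hα : 0 < α) (hα1 : α < 1) (ha : 0 < a) (hcos : Real.cos a = 0) :
    J α a = α / a ^ 2 * (1 + Real.sin a * ((1 - α) * R α a)) := by
  have h1 : J α a = Real.sin a * ∫ t in (0:ℝ)..1, t ^ α * Real.sin (a * t) := by
    unfold J
    have := intervalIntegral.integral_comp_sub_left (a := (0:ℝ)) (b := 1) (fun x : ℝ =>
        Real.cos (a * x) * (1 - x) ^ α) 1
    rw [sub_zero, sub_self] at this
    rw [← this, ← intervalIntegral.integral_const_mul]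
    apply intervalIntegral.integral_congr
    intro x _
    simp only
    rw [show 1 - (1 - x) = x by ring, show a * (1 - x) = a - a * x by ring, Real.cos_sub, hcos]
    ring
  have h2 : Real.sin a ^ 2 = 1 := by
    have := Real.sin_sq_add_cos_sq a
    rw [hcos] at this; linarith
  rw [h1, sin_part hα hα1 ha hcos]
  calc Real.sin a * (α / a ^ 2 * (Real.sin a + (1 - α) * R α a)) =
      α / a ^ 2 * (Real.sin a ^ 2 + Real.sin a * ((1 - α) * R α a)) := by ring
    _ = _ := by rw [h2]

lemma R_nonneg {α a : ℝ} (hα : 0 < α) (hα1 : α < 1) (ha : 0 < a) : 0 ≤ R α a := by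
  set g : ℝ → ℝ := fun t => t ^ (α - 2) * Real.sin (a * t) -
    (2 - α) / a * (t ^ (α - 3) * (1 - Real.cos (a * t))) with hg
  have hd : ∀ t, 0 < t → HasDerivAt (fun t => t ^ (α - 2) * (1 - Real.cos (a * t)) / a)
      (g t) t := by
    intro t ht
    have h2 : HasDerivAt (fun t : ℝ => t ^ (α - 2)) ((α - 2) * t ^ (α - 2 - 1)) t :=
      Real.hasDerivAt_rpow_const (Or.inl ht.ne')
    have h3 : HasDerivAt (fun t : ℝ => Real.cos (a * t)) (-Real.sin (a * t) * (a * 1)) t :=
      (Real.hasDerivAt_cos (a * t)).comp t ((hasDerivAt_id t).const_mul a)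
    have h5 := (h2.mul (h3.const_sub 1)).div_const a
    refine h5.congr_deriv ?_
    rw [hg]
    simp only
    rw [show α - 2 - 1 = α - 3 by ring]
    field_simp
    ring
  have hcont : ContinuousOn (fun t => t ^ (α - 2) * (1 - Real.cos (a * t)) / a) (Icc 0 1) := by
    refine cont_of_bound (C := a / 2) (p := α) hα (by simp) ?_ ?_
    · intro t ht
      have := cos_bound (α := α + 1) (a := a) ht
      rw [show α + 1 - 3 = α - 2 by ring, show α + 1 - 1 = α by ring] at this
      rw [abs_div, abs_of_pos ha, div_le_iff₀ ha]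
      refine this.trans_eq ?_
      ring
    · intro t ht
      exact ((Real.continuousAt_rpow_const t (α - 2) (Or.inl ht.ne')).mul
        (by fun_prop)).div_const a
  have hi2 : IntervalIntegrable (fun t : ℝ => (2 - α) / a *
      (t ^ (α - 3) * (1 - Real.cos (a * t)))) volume 0 1 :=
    (C_int hα le_rfl zero_le_one).const_mul _
  have hi1 := R_int hα ha (x := 0) (y := 1) le_rfl zero_le_one
  have h := intervalIntegral.integral_eq_sub_of_hasDerivAt_of_le zero_le_one hcont
    (fun t ht => hd t ht.1) (hi1.sub hi2)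
  rw [hg, intervalIntegral.integral_sub hi1 hi2] at h
  simp only [Real.one_rpow, mul_one, one_mul, mul_zero, Real.cos_zero, sub_self, zero_div,
    sub_zero] at h
  have h1 : 0 ≤ ∫ t in (0:ℝ)..1, (2 - α) / a * (t ^ (α - 3) * (1 - Real.cos (a * t))) := by
    apply intervalIntegral.integral_nonneg zero_le_one
    intro t ht
    have := Real.cos_le_one (a * t)
    have h2 := Real.rpow_nonneg ht.1 (α - 3)
    have h3 : 0 ≤ (2 - α) / a := by apply div_nonneg <;> linarith
    apply mul_nonneg h3 (mul_nonneg h2 (by linarith))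
  have h2 : 0 ≤ (1 - Real.cos a) / a := by
    have := Real.cos_le_one a
    apply div_nonneg <;> linarith
  unfold R
  linarith

lemma R_le {α a : ℝ} (hα : 1/2 ≤ α) (hα1 : α < 1) (ha : 1 ≤ a) (hcos : Real.cos a = 0) :
    R α a ≤ 4 * a ^ (1 - α) := by
  have hα0 : 0 < α := by linarith
  have ha0 : 0 < a := by linarith
  set δ : ℝ := 1 / a with hδ
  have hδ0 : 0 < δ := by positivity
  have hδ1 : δ ≤ 1 := by rw [hδ, div_le_one ha0]; exact ha
  have hs : R α a = (∫ t in (0:ℝ)..δ, t ^ (α - 2) * Real.sin (a * t)) +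
      ∫ t in δ..1, t ^ (α - 2) * Real.sin (a * t) :=
    (intervalIntegral.integral_add_adjacent_intervals (R_int hα0 ha0 le_rfl hδ0.le)
      (R_int hα0 ha0 hδ0.le zero_le_one)).symm
  have h1 : ∫ t in (0:ℝ)..δ, t ^ (α - 2) * Real.sin (a * t) ≤ a ^ (1 - α) / α := by
    have e1 : ∫ t in (0:ℝ)..δ, t ^ (α - 2) * Real.sin (a * t) ≤
        ∫ t in (0:ℝ)..δ, a * t ^ (α - 1) := by
      apply intervalIntegral.integral_mono_on_of_le_Ioo hδ0.le (R_int hα0 ha0 le_rfl hδ0.le)
        ((rpow_int hα0 _ _).const_mul a)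
      intro t ht
      exact (le_abs_self _).trans (R_bound ha0 ht.1)
    refine e1.trans_eq ?_
    rw [intervalIntegral.integral_const_mul, integral_rpow (Or.inl (by linarith)),
      sub_add_cancel, Real.zero_rpow hα0.ne', sub_zero, hδ, one_div, Real.inv_rpow ha0.le,
      ← Real.rpow_neg ha0.le]
    rw [show (1 - α) = 1 + (-α) by ring, Real.rpow_add ha0, Real.rpow_one]
    ring
  have h2 : ∫ t in δ..1, t ^ (α - 2) * Real.sin (a * t) ≤ 2 * a ^ (1 - α) := by
    have hpos : ∀ t ∈ uIcc δ 1, 0 < t := by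
      intro t ht
      rw [uIcc_of_le hδ1] at ht
      linarith [ht.1]
    have hd : ∀ t ∈ uIcc δ 1, HasDerivAt (fun t => -(t ^ (α - 2) * Real.cos (a * t)) / a)
        (t ^ (α - 2) * Real.sin (a * t) - (α - 2) / a * (t ^ (α - 3) * Real.cos (a * t))) t := by
      intro t ht
      have ht := hpos t ht
      have h2 : HasDerivAt (fun t : ℝ => t ^ (α - 2)) ((α - 2) * t ^ (α - 2 - 1)) t :=
        Real.hasDerivAt_rpow_const (Or.inl ht.ne')
      have h3 : HasDerivAt (fun t : ℝ => Real.cos (a * t)) (-Real.sin (a * t) * (a * 1)) t :=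
        (Real.hasDerivAt_cos (a * t)).comp t ((hasDerivAt_id t).const_mul a)
      have h5 := (h2.mul h3).neg.div_const a
      refine h5.congr_deriv ?_
      rw [show α - 2 - 1 = α - 3 by ring]
      field_simp
      ring
    have hc1 : ContinuousOn (fun t : ℝ => t ^ (α - 2) * Real.sin (a * t)) (uIcc δ 1) := by
      intro t ht
      exact ((Real.continuousAt_rpow_const t (α - 2) (Or.inl (hpos t ht).ne')).mul
        (by fun_prop)).continuousWithinAt
    have hc2 : ContinuousOn (fun t : ℝ => (α - 2) / a * (t ^ (α - 3) * Real.cos (a * t)))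
        (uIcc δ 1) := by
      intro t ht
      exact (continuousAt_const.mul ((Real.continuousAt_rpow_const t (α - 3)
        (Or.inl (hpos t ht).ne')).mul (by fun_prop))).continuousWithinAt
    have hc3 : ContinuousOn (fun t : ℝ => (2 - α) / a * t ^ (α - 3)) (uIcc δ 1) := by
      intro t ht
      exact (continuousAt_const.mul (Real.continuousAt_rpow_const t (α - 3)
        (Or.inl (hpos t ht).ne'))).continuousWithinAt
    have h := intervalIntegral.integral_eq_sub_of_hasDerivAt hd
      (hc1.intervalIntegrable.sub hc2.intervalIntegrable)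
    rw [intervalIntegral.integral_sub hc1.intervalIntegrable hc2.intervalIntegrable] at h
    have e1 : ∫ t in δ..1, (α - 2) / a * (t ^ (α - 3) * Real.cos (a * t)) ≤
        ∫ t in δ..1, (2 - α) / a * t ^ (α - 3) := by
      apply intervalIntegral.integral_mono_on hδ1 hc2.intervalIntegrable hc3.intervalIntegrable
      intro t ht
      have h6 := Real.rpow_nonneg (hδ0.le.trans ht.1) (α - 3)
      have h7 := Real.neg_one_le_cos (a * t)
      have h8 : (α - 2) / a * (t ^ (α - 3) * Real.cos (a * t)) =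
          (2 - α) / a * (t ^ (α - 3) * (-Real.cos (a * t))) := by ring
      rw [h8]
      have h9 : 0 ≤ (2 - α) / a := by apply div_nonneg <;> linarith
      apply mul_le_mul_of_nonneg_left _ h9
      nlinarith
    have e2 : ∫ t in δ..1, (2 - α) / a * t ^ (α - 3) = (δ ^ (α - 2) - 1) / a := by
      rw [intervalIntegral.integral_const_mul, integral_rpow (Or.inr ⟨by linarith, by
        rw [uIcc_of_le hδ1]; rintro ⟨h, -⟩; linarith⟩)]
      rw [show α - 3 + 1 = α - 2 by ring, Real.one_rpow]
      have : α - 2 ≠ 0 := by linarith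
      field_simp
      ring
    have e3 : δ ^ (α - 2) = a * a ^ (1 - α) := by
      rw [hδ, one_div, Real.inv_rpow ha0.le, ← Real.rpow_neg ha0.le,
        show -(α - 2) = 1 + (1 - α) by ring, Real.rpow_add ha0, Real.rpow_one]
    have e4 : (-(δ ^ (α - 2) * Real.cos (a * δ)) / a) ≥ -(a ^ (1 - α)) := by
      have h7 := Real.cos_le_one (a * δ)
      have h8 : 0 < a ^ (1 - α) := Real.rpow_pos_of_pos ha0 _
      rw [e3]
      rw [show -(a * a ^ (1 - α) * Real.cos (a * δ)) / a = -(a ^ (1 - α) * Real.cos (a * δ)) by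
        field_simp]
      nlinarith
    rw [Real.one_rpow, mul_one, hcos] at h
    simp only [mul_zero, neg_zero, zero_div, zero_sub] at h
    have e5 : (δ ^ (α - 2) - 1) / a ≤ a ^ (1 - α) := by
      rw [e3, div_le_iff₀ ha0]
      nlinarith
    linarith
  have h3 : a ^ (1 - α) / α ≤ 2 * a ^ (1 - α) := by
    have h8 : 0 < a ^ (1 - α) := Real.rpow_pos_of_pos ha0 _
    rw [div_le_iff₀ hα0]
    nlinarith
  rw [hs]
  linarith

end Pool.Agent.H49.IA
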