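import Pool.Agent.H49.IA.Osc

/-! The norm of the cosine series. -/

open MeasureTheory Set Filter Topology

namespace Pool.Agent.H49.IA

/-- coefficients of the cosine series -/
noncomputable def w (α : ℝ) (n : ℕ) : ℝ :=
  (1 - Real.cos (Real.pi * n)) * J α (Real.pi * n / 2)

lemma J_neg (α a : ℝ) : J α (-a) = J α a := by
  unfold J
  congr 1
  funext x
  rw [neg_mul, Real.cos_neg]

lemma w_even {α : ℝ} {n : ℕ} (hn : Even n) : w α n = 0 := by
  obtain ⟨m, rfl⟩ := hn
  unfold w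
  have : Real.cos (Real.pi * ((m + m : ℕ) : ℝ)) = 1 := by
    rw [show Real.pi * ((m + m : ℕ) : ℝ) = (m : ℝ) * (2 * Real.pi) by push_cast; ring]
    exact Real.cos_nat_mul_two_pi m
  rw [this]; ring

lemma w_odd {α : ℝ} (hα : 0 < α) (hα1 : α < 1) {n : ℕ} (hn : Odd n) :
    Real.cos (Real.pi * n / 2) = 0 ∧ w α n = 2 * (α / (Real.pi * n / 2) ^ 2 *
      (1 + Real.sin (Real.pi * n / 2) * ((1 - α) * R α (Real.pi * n / 2)))) := by
  obtain ⟨m, rfl⟩ := hn
  have h1 : Real.cos (Real.pi * ((2 * m + 1 : ℕ) : ℝ)) = -1 := by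
    rw [show Real.pi * ((2 * m + 1 : ℕ) : ℝ) = (m : ℝ) * (2 * Real.pi) + Real.pi by
      push_cast; ring]
    exact Real.cos_nat_mul_two_pi_add_pi m
  have h2 : Real.cos (Real.pi * ((2 * m + 1 : ℕ) : ℝ) / 2) = 0 := by
    rw [Real.cos_eq_zero_iff]
    exact ⟨m, by push_cast; ring⟩
  refine ⟨h2, ?_⟩
  unfold w
  rw [h1, J_eq hα hα1 (by have := Real.pi_pos; positivity) h2]
  ring

lemma hasSum_zero_int {α : ℝ} (hα : 0 < α) (hs : Summable (fourierCoeff (F α hα))) {ξ : ℝ}
    (hξ : |ξ| ≤ 1) :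
    HasSum (fun n : ℕ => w α n * Real.cos (Real.pi * n / 2 * ξ)) ((1 - |ξ|) ^ α) := by
  have h1 := has_pointwise_sum_fourier_series_of_summable hs (ξ : AddCircle (4:ℝ))
  have h2 := h1.nat_add_neg
  have e0 : fourierCoeff (F α hα) (0:ℤ) = 0 := by
    rw [coef]; simp
  rw [e0, zero_smul, add_zero, F_coe hα (by linarith)] at h2
  have e1 : G α (1 - |ξ|) = (1 - |ξ|) ^ α := by
    unfold G; rw [if_pos (by linarith)]
  rw [e1] at h2
  have e2 : (fun n : ℕ => fourierCoeff (F α hα) (n:ℤ) • (fourier (n:ℤ) (ξ : AddCircle (4:ℝ)) : ℂ) +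
      fourierCoeff (F α hα) (-(n:ℤ)) • (fourier (-(n:ℤ)) (ξ : AddCircle (4:ℝ)) : ℂ)) =
      fun n : ℕ => ((w α n * Real.cos (Real.pi * n / 2 * ξ) : ℝ) : ℂ) := by
    funext n
    rw [coef, coef, e_four, e_four]
    unfold w
    have c1 : Real.cos (Real.pi * ((-(n:ℤ) : ℤ) : ℝ)) = Real.cos (Real.pi * n) := by
      push_cast
      rw [mul_neg, Real.cos_neg]
    have c2 : J α (Real.pi * ((-(n:ℤ) : ℤ) : ℝ) / 2) = J α (Real.pi * n / 2) := by
      push_cast
      rw [show Real.pi * (-(n:ℝ)) / 2 = -(Real.pi * n / 2) by ring, J_neg]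
    have c3 : (((n:ℤ)) : ℝ) = (n:ℝ) := by push_cast; rfl
    rw [c1, c2, c3, smul_eq_mul, smul_eq_mul, Complex.ofReal_mul (_ * _) (Real.cos _),
      Complex.ofReal_cos]
    have c4 : Complex.cos ((Real.pi * n / 2 * ξ : ℝ) : ℂ) =
      (Complex.exp (((Real.pi * n / 2 * ξ : ℝ) : ℂ) * Complex.I)
          + Complex.exp (-((Real.pi * n / 2 * ξ : ℝ) : ℂ) * Complex.I)) / 2 := rfl
    rw [c4]
    have c5 : (((Real.pi * ((-(n:ℤ) : ℤ) : ℝ) / 2 * ξ : ℝ)) : ℂ) =
        -((Real.pi * n / 2 * ξ : ℝ) : ℂ) := by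
      push_cast; ring
    rw [c5]
    push_cast
    ring
  rw [e2] at h2
  exact_mod_cast h2

lemma telescope {x h : ℝ} (hx : 0 < x) (hh : 0 < h) :
    h / 2 * (1 / ((x + h) * √(x + h))) ≤ 1 / √x - 1 / √(x + h) := by
  have h1 : 0 < √x := Real.sqrt_pos.2 hx
  have h2 : 0 < √(x + h) := Real.sqrt_pos.2 (by linarith)
  have h3 : √x ≤ √(x + h) := Real.sqrt_le_sqrt (by linarith)
  have h4 : √x ^ 2 = x := Real.sq_sqrt hx.le
  have h5 : √(x + h) ^ 2 = x + h := Real.sq_sqrt (by linarith)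
  set p := √x
  set q := √(x + h)
  have e : x + h = q ^ 2 := h5.symm
  rw [e]
  have e2 : h = q ^ 2 - p ^ 2 := by rw [h4, h5]; ring
  rw [e2]
  rw [div_sub_div _ _ h1.ne' h2.ne', ← mul_div_assoc, mul_one, div_le_div_iff₀ (by positivity)
    (by positivity)]
  have h6 : 0 ≤ q - p := by linarith
  have h7 : (q ^ 2 - p ^ 2) / 2 * (p * q) = (q - p) * ((q + p) / 2 * p * q) := by ring
  have h8 : (1 * q - p * 1) * (q ^ 2 * q) = (q - p) * (q ^ 2 * q) := by ring
  rw [h7, h8]
  apply mul_le_mul_of_nonneg_left _ h6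
  have h9 : (q + p) / 2 * p ≤ q ^ 2 := by nlinarith
  nlinarith

lemma sum_majorant {K : ℝ} (hK : 0 < K) (N : ℕ) :
    ∑ n ∈ Finset.range N, 1 / ((Real.pi * ((n + 1 : ℕ) : ℝ) / 2 + K) *
      √(Real.pi * ((n + 1 : ℕ) : ℝ) / 2 + K)) ≤ 4 / Real.pi * (1 / √K) := by
  have hpi := Real.pi_pos
  have h1 : ∀ n : ℕ, 1 / ((Real.pi * ((n + 1 : ℕ) : ℝ) / 2 + K) *
      √(Real.pi * ((n + 1 : ℕ) : ℝ) / 2 + K)) ≤ 4 / Real.pi *
      (1 / √(Real.pi * n / 2 + K) - 1 / √(Real.pi * ((n + 1 : ℕ) : ℝ) / 2 + K)) := by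
    intro n
    have h := telescope (x := Real.pi * n / 2 + K) (h := Real.pi / 2) (by positivity)
      (by positivity)
    have e : Real.pi * n / 2 + K + Real.pi / 2 = Real.pi * ((n + 1 : ℕ) : ℝ) / 2 + K := by
      push_cast; ring
    rw [e] at h
    have h2 := mul_le_mul_of_nonneg_left h (by positivity : 0 ≤ 4 / Real.pi)
    refine le_trans (le_of_eq ?_) h2
    field_simp
    norm_num
  refine (Finset.sum_le_sum fun n _ => h1 n).trans ?_
  rw [← Finset.mul_sum]
  apply mul_le_mul_of_nonneg_left _ (by positivity)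
  have h2 := Finset.sum_range_sub' (fun n : ℕ => 1 / √(Real.pi * n / 2 + K)) N
  rw [h2]
  simp only [Nat.cast_zero, mul_zero, zero_div, zero_add]
  have : 0 ≤ 1 / √(Real.pi * N / 2 + K) := by positivity
  linarith

section
variable {α : ℝ} (hα : 1/2 ≤ α) (hα1 : α < 1)
include hα hα1

lemma a_ge {n : ℕ} (hn : 1 ≤ n) : 1 ≤ Real.pi * n / 2 := by
  have := Real.pi_gt_three
  have h : (1:ℝ) ≤ n := by exact_mod_cast hn
  nlinarith

lemma abs_w_le {n : ℕ} (hn : Odd n) :
    |w α n| ≤ 2 * (1 / (Real.pi * n / 2) ^ 2) * (1 + 4 * (1 - α) * (Real.pi * n / 2) ^ (1 - α)) ∧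
    |w α n| ≤ w α n + 4 * (1 / (Real.pi * n / 2) ^ 2) *
      max 0 (4 * (1 - α) * (Real.pi * n / 2) ^ (1 - α) - 1) := by
  have hα0 : 0 < α := by linarith
  obtain ⟨hc, hw⟩ := w_odd hα0 hα1 hn
  have ha1 : 1 ≤ Real.pi * n / 2 := a_ge hα hα1 hn.pos
  have hR0 := R_nonneg hα0 hα1 (by linarith : 0 < Real.pi * n / 2)
  have hR1 := R_le hα hα1 ha1 hc
  set a := Real.pi * n / 2 with ha
  have hs : Real.sin a = 1 ∨ Real.sin a = -1 := by
    have := Real.sin_sq_add_cos_sq a
    rw [hc] at this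
    have h2 : Real.sin a ^ 2 = 1 := by linarith
    have h3 : (Real.sin a - 1) * (Real.sin a + 1) = 0 := by linarith
    rcases mul_eq_zero.1 h3 with h | h
    · exact Or.inl (by linarith)
    · exact Or.inr (by linarith)
  have ha0 : 0 < a := by linarith
  set P : ℝ := a ^ (1 - α) with hP
  have hP0 : 0 < P := Real.rpow_pos_of_pos ha0 _
  set ρ : ℝ := R α a with hρ
  have hq : 0 < 1 / a ^ 2 := by positivity
  set q : ℝ := 1 / a ^ 2 with hqd
  have hε : 0 < 1 - α := by linarith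
  have hw' : w α n = 2 * α * q * (1 + Real.sin a * ((1 - α) * ρ)) := by
    rw [hw, hqd]; ring
  have h4 : (1 - α) * ρ ≤ 4 * (1 - α) * P := by nlinarith
  have h5 : 0 ≤ (1 - α) * ρ := by positivity
  set u : ℝ := (1 - α) * ρ with hu
  set v : ℝ := 4 * (1 - α) * P with hv
  have hαq : 0 < 2 * α * q := by positivity
  have hαq2 : 2 * α * q ≤ 2 * q := by nlinarith
  have hm0 : 0 ≤ max 0 (v - 1) := le_max_left _ _
  have hm1 : v - 1 ≤ max 0 (v - 1) := le_max_right _ _
  rcases hs with h | h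
  · rw [h, one_mul] at hw'
    have h6 : 0 ≤ w α n := by rw [hw']; positivity
    rw [abs_of_nonneg h6]
    constructor
    · rw [hw']
      have : 2 * α * q * (1 + u) ≤ 2 * q * (1 + u) :=
        mul_le_mul_of_nonneg_right hαq2 (by linarith)
      have h7 : 2 * q * (1 + u) ≤ 2 * q * (1 + v) := by
        apply mul_le_mul_of_nonneg_left _ (by positivity)
        linarith
      linarith
    · have : 0 ≤ 4 * q * max 0 (v - 1) := by positivity
      linarith
  · rw [h] at hw'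
    have hw2 : w α n = 2 * α * q * (1 - u) := by rw [hw']; ring
    constructor
    · rw [hw2, abs_mul, abs_of_pos hαq]
      have h7 : |1 - u| ≤ 1 + v := by
        rw [abs_le]; constructor <;> linarith
      calc 2 * α * q * |1 - u| ≤ 2 * q * |1 - u| :=
            mul_le_mul_of_nonneg_right hαq2 (abs_nonneg _)
        _ ≤ 2 * q * (1 + v) := mul_le_mul_of_nonneg_left h7 (by positivity)
        _ = _ := by ring
    · rcases le_or_gt u 1 with h8 | h8
      · have h6 : 0 ≤ w α n := by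
          rw [hw2]; apply mul_nonneg hαq.le; linarith
        rw [abs_of_nonneg h6]
        have : 0 ≤ 4 * q * max 0 (v - 1) := by positivity
        linarith
      · have h6 : w α n ≤ 0 := by
          rw [hw2]; apply mul_nonpos_of_nonneg_of_nonpos hαq.le; linarith
        rw [abs_of_nonpos h6]
        have h9 : -w α n ≤ 2 * q * max 0 (v - 1) := by
          rw [hw2]
          calc -(2 * α * q * (1 - u)) = 2 * α * q * (u - 1) := by ring
            _ ≤ 2 * q * (u - 1) := mul_le_mul_of_nonneg_right hαq2 (by linarith)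
            _ ≤ 2 * q * max 0 (v - 1) := by
              apply mul_le_mul_of_nonneg_left _ (by positivity)
              linarith
        linarith

/-- The majorant of the negative coefficients. -/
lemma neg_le {n : ℕ} (hn : 1 ≤ n) :
    1 / (Real.pi * n / 2) ^ 2 * max 0 (4 * (1 - α) * (Real.pi * n / 2) ^ (1 - α) - 1) ≤
      2 * √2 * √((4 * (1 - α)) ^ (1 / (1 - α))) *
      (1 / ((Real.pi * n / 2 + (4 * (1 - α)) ^ (-(1 / (1 - α)))) *
        √(Real.pi * n / 2 + (4 * (1 - α)) ^ (-(1 / (1 - α)))))) := by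
  have ha1 : 1 ≤ Real.pi * n / 2 := a_ge hα hα1 hn
  set a := Real.pi * n / 2 with ha
  have ha0 : 0 < a := by linarith
  have hε : 0 < 1 - α := by linarith
  have hb : 0 < 4 * (1 - α) := by linarith
  set ε := 1 - α with hεd
  set K : ℝ := (4 * ε) ^ (-(1 / ε)) with hK
  have hK0 : 0 < K := Real.rpow_pos_of_pos hb _
  have hKinv : (4 * ε) ^ (1 / ε) = 1 / K := by
    rw [hK, Real.rpow_neg hb.le, one_div ((4 * _) ^ _)⁻¹, inv_inv]
  have hKε : K ^ ε = 1 / (4 * ε) := by
    rw [hK, ← Real.rpow_mul hb.le, show -(1 / ε) * ε = -1 by field_simp, Real.rpow_neg_one,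
      one_div]
  have hv : 4 * ε * a ^ ε = (a / K) ^ ε := by
    rw [Real.div_rpow ha0.le hK0.le, hKε]
    field_simp
  rw [hKinv, hv]
  have hx0 : 0 < a + K := by linarith
  have hRHS : 0 ≤ 2 * √2 * √(1 / K) * (1 / ((a + K) * √(a + K))) := by positivity
  rcases le_or_gt a K with h | h
  · have h1 : (a / K) ^ ε ≤ 1 :=
      Real.rpow_le_one (by positivity) ((div_le_one hK0).2 h) hε.le
    rw [max_eq_left (by linarith), mul_zero]
    exact hRHS
  · have h1 : 1 ≤ a / K := (one_le_div hK0).2 h.le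
    have h2 : (a / K) ^ ε ≤ √(a / K) := by
      rw [Real.sqrt_eq_rpow]
      exact Real.rpow_le_rpow_of_exponent_le h1 (by linarith)
    have h3 : max 0 ((a / K) ^ ε - 1) ≤ √(a / K) := by
      apply max_le (Real.sqrt_nonneg _); linarith
    have h4 : 1 / a ^ 2 * max 0 ((a / K) ^ ε - 1) ≤ 1 / a ^ 2 * √(a / K) :=
      mul_le_mul_of_nonneg_left h3 (by positivity)
    refine h4.trans ?_
    have h5 : √(a / K) = √a * √(1 / K) := by
      rw [← Real.sqrt_mul ha0.le]; congr 1; ring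
    rw [h5]
    have h6 : √(a + K) ≤ √2 * √a := by
      rw [← Real.sqrt_mul (by norm_num)]
      exact Real.sqrt_le_sqrt (by linarith)
    have h7 : 0 < √a := Real.sqrt_pos.2 ha0
    have h8 : √a * √a = a := Real.mul_self_sqrt ha0.le
    have h9 : 1 / a ^ 2 * (√a * √(1 / K)) = √(1 / K) * (1 / (a * √a)) := by
      field_simp
      nlinarith
    rw [h9]
    have h10 : 1 / (a * √a) ≤ 2 * √2 * (1 / ((a + K) * √(a + K))) := by
      rw [← mul_div_assoc, mul_one, div_le_div_iff₀ (by positivity) (by positivity), one_mul]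
      calc (a + K) * √(a + K) ≤ (2 * a) * (√2 * √a) := by
            apply mul_le_mul (by linarith) h6 (Real.sqrt_nonneg _) (by positivity)
        _ = 2 * √2 * (a * √a) := by ring
    calc √(1 / K) * (1 / (a * √a)) ≤ √(1 / K) * (2 * √2 * (1 / ((a + K) * √(a + K)))) :=
          mul_le_mul_of_nonneg_left h10 (Real.sqrt_nonneg _)
      _ = _ := by ring

lemma abs_w_crude (n : ℕ) : |w α n| ≤ 6 * (1 / (n : ℝ) ^ (3 / 2 : ℝ)) := by
  rcases Nat.even_or_odd n with h | h
  · rw [w_even h, abs_zero]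
    positivity
  · refine (abs_w_le hα hα1 h).1.trans ?_
    have ha1 : 1 ≤ Real.pi * n / 2 := a_ge hα hα1 h.pos
    have hn1 : (1:ℝ) ≤ n := by exact_mod_cast h.pos
    have hna : (n:ℝ) ≤ Real.pi * n / 2 := by
      have := Real.pi_gt_three
      nlinarith
    set a := Real.pi * n / 2 with ha
    have ha0 : 0 < a := by linarith
    have h1 : a ^ (1 - α) ≤ a ^ (1 / 2 : ℝ) :=
      Real.rpow_le_rpow_of_exponent_le ha1 (by linarith)
    have h2 : (1:ℝ) ≤ a ^ (1 / 2 : ℝ) := Real.one_le_rpow ha1 (by norm_num)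
    have h3 : 1 + 4 * (1 - α) * a ^ (1 - α) ≤ 3 * a ^ (1 / 2 : ℝ) := by
      have : 4 * (1 - α) * a ^ (1 - α) ≤ 2 * a ^ (1 / 2 : ℝ) := by
        apply mul_le_mul (by linarith) h1 (by positivity) (by norm_num)
      linarith
    have h4 : 2 * (1 / a ^ 2) * (1 + 4 * (1 - α) * a ^ (1 - α)) ≤
        2 * (1 / a ^ 2) * (3 * a ^ (1 / 2 : ℝ)) :=
      mul_le_mul_of_nonneg_left h3 (by positivity)
    refine h4.trans ?_
    have h5 : 1 / a ^ 2 * a ^ (1 / 2 : ℝ) = 1 / a ^ (3 / 2 : ℝ) := by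
      rw [← Real.rpow_natCast, one_div (a ^ _), one_div (a ^ _), ← Real.rpow_neg ha0.le,
        ← Real.rpow_neg ha0.le, ← Real.rpow_add ha0]
      congr 1
      norm_num
    have h6 : 1 / a ^ (3 / 2 : ℝ) ≤ 1 / (n:ℝ) ^ (3 / 2 : ℝ) := by
      apply one_div_le_one_div_of_le (by positivity)
      exact Real.rpow_le_rpow (by linarith) hna (by norm_num)
    calc 2 * (1 / a ^ 2) * (3 * a ^ (1 / 2 : ℝ)) = 6 * (1 / a ^ 2 * a ^ (1 / 2 : ℝ)) := by ring
      _ ≤ _ := by rw [h5]; linarith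

lemma w_summable : Summable fun n => |w α n| := by
  have h1 : Summable fun n : ℕ => 6 * (1 / (n : ℝ) ^ (3 / 2 : ℝ)) :=
    (Real.summable_one_div_nat_rpow.2 (by norm_num)).mul_left 6
  exact Summable.of_nonneg_of_le (fun n => abs_nonneg _) (abs_w_crude hα hα1) h1

lemma coef_summable : Summable (fourierCoeff (F α (by linarith))) := by
  have hs := w_summable hα hα1
  have key : ∀ n : ℤ, fourierCoeff (F α (by linarith)) n = ((w α n.natAbs / 2 : ℝ) : ℂ) := by
    intro n
    rw [coef]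
    unfold w
    rcases Int.natAbs_eq n with h | h
    · have e : ((n.natAbs : ℕ) : ℝ) = (n : ℝ) := by
        conv_rhs => rw [h]
        exact (Int.cast_natCast _).symm
      rw [e]
      congr 1
      ring
    · have e : (n : ℝ) = -((n.natAbs : ℕ) : ℝ) := by
        conv_lhs => rw [h]
        rw [Int.cast_neg, Int.cast_natCast]
      rw [e, mul_neg, Real.cos_neg, neg_div, J_neg]
      congr 1
      ring
  apply Summable.of_norm
  have e : (fun n : ℤ => ‖fourierCoeff (F α (by linarith)) n‖) = fun n : ℤ => |w α n.natAbs| / 2 := by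
    funext n
    rw [key, Complex.norm_real, Real.norm_eq_abs, abs_div, abs_of_pos (by norm_num : (0:ℝ) < 2)]
  rw [e]
  apply Summable.div_const
  apply Summable.of_nat_of_neg
  · simpa using hs
  · simpa using hs

theorem norm_bound : ∑' n, |w α n| ≤ 1 + 15 * (4 * (1 - α)) ^ (1 / (1 - α)) := by
  have hs := w_summable hα hα1
  have hε : 0 < 1 - α := by linarith
  have hb : 0 < 4 * (1 - α) := by linarith
  have hα0 : 0 < α := by linarith
  have h1 : HasSum (fun n => w α n) 1 := by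
    have := hasSum_zero_int hα0 (coef_summable hα hα1) (ξ := 0) (by norm_num)
    simpa using this
  set K : ℝ := (4 * (1 - α)) ^ (-(1 / (1 - α))) with hK
  have hK0 : 0 < K := Real.rpow_pos_of_pos hb _
  have hKinv : (4 * (1 - α)) ^ (1 / (1 - α)) = 1 / K := by
    rw [hK, Real.rpow_neg hb.le, one_div ((4 * _) ^ _)⁻¹, inv_inv]
  set m : ℕ → ℝ := fun n => if n = 0 then 0 else
    4 * (2 * √2 * √(1 / K) * (1 / ((Real.pi * n / 2 + K) * √(Real.pi * n / 2 + K)))) with hm
  have hle : ∀ n, |w α n| ≤ w α n + m n := by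
    intro n
    rcases Nat.even_or_odd n with h | h
    · rw [w_even h, abs_zero, zero_add, hm]
      simp only
      split_ifs
      · exact le_rfl
      · have := Real.pi_pos; positivity
    · refine (abs_w_le hα hα1 h).2.trans ?_
      have h2 := neg_le hα hα1 h.pos
      rw [← hK, hKinv] at h2
      rw [hm]
      simp only
      rw [if_neg h.pos.ne']
      linarith
  have hm0 : ∀ n, 0 ≤ m n := by
    intro n
    rw [hm]
    simp only
    split_ifs
    · exact le_rfl
    · have := Real.pi_pos; positivity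
  have hfin : ∀ N, ∑ n ∈ Finset.range N, m n ≤ 15 / K := by
    intro N
    have h3 : ∑ n ∈ Finset.range N, m n ≤ ∑ n ∈ Finset.range (N + 1), m n :=
      Finset.sum_le_sum_of_subset_of_nonneg (Finset.range_mono (Nat.le_succ N))
        (fun n _ _ => hm0 n)
    refine h3.trans ?_
    rw [Finset.sum_range_succ']
    have e0 : m 0 = 0 := by rw [hm]; simp
    have e1 : ∀ n, m (n + 1) = 4 * (2 * √2 * √(1 / K)) * (1 / ((Real.pi * ((n + 1 : ℕ) : ℝ) / 2 + K) *
        √(Real.pi * ((n + 1 : ℕ) : ℝ) / 2 + K))) := by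
      intro n
      rw [hm]
      simp only
      rw [if_neg (Nat.succ_ne_zero n)]
      ring
    rw [e0, add_zero]
    simp only [e1]
    rw [← Finset.mul_sum]
    have h4 := mul_le_mul_of_nonneg_left (sum_majorant hK0 N)
      (by positivity : 0 ≤ 4 * (2 * √2 * √(1 / K)))
    refine h4.trans ?_
    have e2 : √(1 / K) = 1 / √K := by rw [Real.sqrt_div zero_le_one, Real.sqrt_one]
    have e3 : √K * √K = K := Real.mul_self_sqrt hK0.le
    rw [e2]
    have e4 : 4 * (2 * √2 * (1 / √K)) * (4 / Real.pi * (1 / √K)) =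
        32 * √2 / (Real.pi * (√K * √K)) := by
      have := Real.pi_ne_zero
      have : √K ≠ 0 := (Real.sqrt_pos.2 hK0).ne'
      field_simp
      ring
    rw [e4, e3]
    have h5 : √2 < 1.4143 := by
      rw [Real.sqrt_lt' (by norm_num)]; norm_num
    have h6 := Real.pi_gt_d2
    rw [div_le_div_iff₀ (by positivity) hK0]
    nlinarith
  have hms : Summable m := summable_of_sum_range_le hm0 hfin
  have hmt : ∑' n, m n ≤ 15 / K := hms.tsum_le_of_sum_range_le hfin
  have h2 : ∑' n, |w α n| ≤ ∑' n, (w α n + m n) :=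
    hs.tsum_le_tsum hle (h1.summable.add hms)
  rw [h1.summable.tsum_add hms, h1.tsum_eq] at h2
  rw [hKinv]
  calc _ ≤ _ := h2
    _ ≤ 1 + 15 / K := by linarith
    _ = _ := by ring

end

end Pool.Agent.H49.IA
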